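import Mathlib
import Pool.Agent.Helper27.HypAlg

set_option autoImplicit false

namespace Pool.Agent.Results.MP_6ee6b4_an.Disproof

open Pool.Agent.Helper27

/-- `X` is an `F`-algebra over `ℂ`: a completely metrizable topological vector space over `ℂ` with
an associative (`NonUnitalRing`), bilinear (`IsScalarTower`, `SMulCommClass`) and continuous
(`ContinuousMul`) multiplication. -/
class FAlgebra (X : Type) [NonUnitalRing X] [Module ℂ X] [TopologicalSpace X] : Prop extends
  IsScalarTower ℂ X X, SMulCommClass ℂ X X, IsTopologicalAddGroup X, ContinuousSMul ℂ X,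
  ContinuousMul X, TopologicalSpace.IsCompletelyMetrizableSpace X

variable {X : Type} [NonUnitalRing X] [Module ℂ X] [TopologicalSpace X] [FAlgebra X]

/-- `y` is a hypercyclic vector for `T`. -/
def Hypercyclic (T : X →L[ℂ] X) (y : X) : Prop := Dense (Set.range fun n : ℕ => (⇑T)^[n] y)

/-- The subalgebra `A(x)` generated by `x`. -/
abbrev A (x : X) : NonUnitalSubalgebra ℂ X := NonUnitalAlgebra.adjoin ℂ {x}

/-- The set `G(T)` of all generators of hypercyclic algebras for `T`: all `x ≠ 0` such that every
nonzero element of `A(x)` is hypercyclic for `T`. -/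
def G (T : X →L[ℂ] X) : Set X := {x | x ≠ 0 ∧ ∀ y ∈ A x, y ≠ 0 → Hypercyclic T y}

/-- **Disproof of Q1 and Q2.** There are a commutative `F`-algebra `X` without nonzero nilpotent
elements (in fact `ℓ²` with the coordinatewise product) and a continuous linear `T : X → X` such
that `G(T)` has an element `x`, even with `A(x)` infinite-dimensional, but `G(T)` is nowhere dense;
in particular `G(T)` is neither dense nor residual. -/
theorem result : ∃ (X : Type) (_ : NonUnitalRing X) (_ : Module ℂ X) (_ : TopologicalSpace X)
    (_ : FAlgebra X) (T : X →L[ℂ] X),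
    (∀ x y : X, x * y = y * x) ∧ (∀ x : X, x * x = 0 → x = 0) ∧
    (∃ x ∈ G T, ¬ FiniteDimensional ℂ (A x)) ∧
    IsNowhereDense (G T) ∧ ¬ Dense (G T) ∧ G T ∉ residual X := by
  have : FAlgebra (HypAlg.H × HypAlg.H) := { }
  exact ⟨HypAlg.H × HypAlg.H, inferInstance, inferInstance, inferInstance, this, HypAlg.T,
    mul_comm, HypAlg.reduced, HypAlg.exists_gen, HypAlg.isNowhereDense_gen, HypAlg.not_dense_gen,
    fun h => HypAlg.not_dense_gen (dense_of_mem_residual h)⟩

end Pool.Agent.Results.MP_6ee6b4_an.Disproof
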